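import Pool.Agent.Lib.MP_edb5be_nt.ND.Iface3

/-!
# Module SANDWICH: the density of an invariant set is known, up to a factor 2, from one block
(helper74)
-/

set_option autoImplicit false

namespace Pool.Agent.Lib.MP_edb5be_nt.ND.H74

open Finset Pool.Agent.Lib.MP_0a5adf_nt.TP Pool.Agent.Lib.MP_edb5be_nt.ND

theorem PJ_one (G : ℝ → ℝ) (u : ℝ) : PJ 1 G u = (G (u - 1) + G (u + (th - 1))) / 2 := by
  have h1 : PJ 1 G u = bw 1 0 * G (u - (1 : ℕ) + th * (0 : ℕ)) +
      bw 1 1 * G (u - (1 : ℕ) + th * (1 : ℕ)) := by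
    unfold PJ
    rw [Finset.sum_range_succ, Finset.sum_range_one]
  have h2 : bw 1 0 = 1 / 2 := by simp [bw]
  have h3 : bw 1 1 = 1 / 2 := by simp [bw]
  rw [h1, h2, h3, show u - ((1 : ℕ) : ℝ) + th * ((0 : ℕ) : ℝ) = u - 1 by push_cast; ring,
    show u - ((1 : ℕ) : ℝ) + th * ((1 : ℕ) : ℝ) = u + (th - 1) by push_cast; ring]
  ring

theorem sandwich (hT : TGPStatement) (hC : CompStatement) (hD : DoubleStatement)
    (hL : LipStatement) : SandwichStatement := by
  intro A
  obtain ⟨C, u0, hC0, hTG⟩ := hT (A + 2)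
  obtain ⟨K, u1, hK, hu1, hCo⟩ := hC (A + 1) C (by omega) hC0
  refine ⟨2 * K * 2 ^ (A + 1), max (max u0 u1) 40 + 1, by positivity, ?_⟩
  intro d B lo D u hB hlim hu hlo
  have hm1 : max u0 u1 ≤ max (max u0 u1) 40 := le_max_left _ _
  have hm2 : u0 ≤ max u0 u1 := le_max_left _ _
  have hm3 : u1 ≤ max u0 u1 := le_max_right _ _
  have hm4 : (40 : ℝ) ≤ max (max u0 u1) 40 := le_max_right _ _
  have hu41 : 41 ≤ u := by linarith
  have hupos : 0 < u := by linarith
  have hbd : ∀ t : ℝ, 0 ≤ t → 0 ≤ Gd B t ∧ Gd B t ≤ 2 := by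
    intro t ht
    obtain ⟨h1, h2, -⟩ := hL B t 0 ht le_rfl zero_le_one
    refine ⟨h1, h2.trans ?_⟩
    have h3 : (1 : ℝ) ≤ 2 ^ t := Real.one_le_rpow (by norm_num) ht
    have h4 : 1 / (2 : ℝ) ^ t ≤ 1 := by
      rw [div_le_one (by positivity)]
      exact h3
    linarith
  have hstep : ∀ t : ℝ, u ≤ t →
      |Gd B t - (Gd B (t - 1) + Gd B (t + (th - 1))) / 2| ≤ C / t ^ (A + 2) := by
    intro t ht
    have h1 := hTG d B lo t 1 (by linarith) (by linarith) hB (by push_cast; linarith)
    rwa [PJ_one] at h1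
  have hpow : ∀ (x : ℝ), 0 ≤ x → x / u ^ (A + 1) ≤ x / u ^ A := by
    intro x hx
    exact div_le_div_of_nonneg_left hx (by positivity)
      (pow_le_pow_right₀ (by linarith) (Nat.le_succ A))
  constructor
  · -- lower bound
    have h1 := hCo (fun t => - Gd B t) 2 (-2 * Gd B u) (u - 1) (by linarith)
      (fun t ht => by
        have := (hbd t (by linarith)).2
        show -2 ≤ - Gd B t
        linarith)
      (fun t ht => by
        have := abs_le.1 (hstep t (by linarith))
        show (- Gd B (t - 1) + - Gd B (t + (th - 1))) / 2 - C / t ^ (A + 1 + 1) ≤ - Gd B t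
        linarith [this.1, this.2])
      (fun t ht ht' => by
        have h2 := (hD d B lo (u - 1) (t - (u - 1)) hB (by linarith) (by linarith)
          (by linarith)).2
        rw [show u - 1 + (t - (u - 1)) = t by ring, show u - 1 + 1 = u by ring] at h2
        show -2 * Gd B u ≤ - Gd B t
        linarith)
    have h3 : D ≤ 2 * Gd B u + K / (u - 1) ^ (A + 1) := by
      refine le_of_tendsto hlim ?_
      filter_upwards [Filter.eventually_ge_atTop (u - 1)] with t ht
      have := h1 t ht
      linarith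
    have h4 : K / (u - 1) ^ (A + 1) ≤ K * 2 ^ (A + 1) / u ^ (A + 1) := by
      have h5 : (u / 2) ^ (A + 1) ≤ (u - 1) ^ (A + 1) :=
        pow_le_pow_left₀ (by linarith) (by linarith) _
      have h6 : K / (u - 1) ^ (A + 1) ≤ K / (u / 2) ^ (A + 1) :=
        div_le_div_of_nonneg_left hK.le (by positivity) h5
      refine h6.trans (le_of_eq ?_)
      rw [div_pow]
      field_simp
    have h7 := hpow (K * 2 ^ (A + 1)) (by positivity)
    have h8 : 0 ≤ K * 2 ^ (A + 1) / u ^ A := by positivity
    have h9 : 2 * K * 2 ^ (A + 1) / u ^ A = 2 * (K * 2 ^ (A + 1) / u ^ A) := by ring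
    rw [h9]
    linarith
  · -- upper bound
    have h1 := hCo (Gd B) 0 (Gd B u / 2) u (by linarith)
      (fun t ht => by
        have := (hbd t (by linarith)).1
        linarith)
      (fun t ht => by
        have := abs_le.1 (hstep t (by linarith))
        show (Gd B (t - 1) + Gd B (t + (th - 1))) / 2 - C / t ^ (A + 1 + 1) ≤ Gd B t
        linarith [this.1, this.2])
      (fun t ht ht' => by
        have h2 := (hD d B lo u (t - u) hB (by linarith) (by linarith)
          (by linarith)).1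
        rw [show u + (t - u) = t by ring] at h2
        exact h2)
    have h3 : Gd B u / 2 - K / u ^ (A + 1) ≤ D := by
      refine ge_of_tendsto hlim ?_
      filter_upwards [Filter.eventually_ge_atTop u] with t ht
      exact h1 t ht
    have h7 := hpow K hK.le
    have h8 : 0 ≤ K / u ^ A := by positivity
    have h9 : (1 : ℝ) ≤ 2 ^ (A + 1) := one_le_pow₀ (by norm_num)
    have h10 : 2 * K * 2 ^ (A + 1) / u ^ A = 2 * ((K / u ^ A) * 2 ^ (A + 1)) := by ring
    have h11 : K / u ^ A ≤ (K / u ^ A) * 2 ^ (A + 1) := le_mul_of_one_le_right h8 h9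
    rw [h10]
    linarith

end Pool.Agent.Lib.MP_edb5be_nt.ND.H74
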