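import Pool.Agent.Lib.MP_edb5be_nt.ND.Iface2
import Pool.Agent.Lib.MP_0a5adf_nt.H55.Transfer

/-!
# Project ND: module PV1A
-/

set_option autoImplicit false

namespace Pool.Agent.Lib.MP_edb5be_nt.ND.H74

open Finset Pool.Agent.Lib.MP_0a5adf_nt.TP Pool.Agent.Lib.MP_0a5adf_nt.H55

theorem low_fac {x : ℝ} (h0 : 0 ≤ x) (h1 : x ≤ 1 / 2) (z : ℝ) :
    (2 : ℝ) ^ z ≤ (1 - x) * 2 ^ (z + 2 * x) := by
  have h := rpow_one_add_le_one_add_mul_self (s := -1 / 2) (p := 2 * x) (by norm_num)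
    (by linarith) (by linarith)
  have e : (1 + -1 / 2 : ℝ) = 2⁻¹ := by norm_num
  rw [e, Real.inv_rpow (by norm_num)] at h
  have hp : (0 : ℝ) < 2 ^ (2 * x) := Real.rpow_pos_of_pos (by norm_num) _
  have hz : (0 : ℝ) < 2 ^ z := Real.rpow_pos_of_pos (by norm_num) _
  have h2 : (1 : ℝ) ≤ (1 - x) * 2 ^ (2 * x) := by
    have h3 : ((2 : ℝ) ^ (2 * x))⁻¹ * 2 ^ (2 * x) ≤ (1 - x) * 2 ^ (2 * x) :=
      mul_le_mul_of_nonneg_right (by linarith) hp.le
    rwa [inv_mul_cancel₀ hp.ne'] at h3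
  rw [Real.rpow_add (by norm_num)]
  nlinarith

theorem high_fac {x : ℝ} (h0 : 0 ≤ x) (z : ℝ) :
    (1 + x) * (2 : ℝ) ^ (z - 2 * x) ≤ 2 ^ z := by
  have hp : (0 : ℝ) < 2 ^ (z - 2 * x) := Real.rpow_pos_of_pos (by norm_num) _
  have h1 : 1 + x ≤ (2 : ℝ) ^ (2 * x) := by
    rw [Real.rpow_def_of_pos (by norm_num)]
    have h2 := Real.add_one_le_exp (Real.log 2 * (2 * x))
    have h3 := Real.log_two_gt_d9
    nlinarith
  calc (1 + x) * (2 : ℝ) ^ (z - 2 * x) ≤ 2 ^ (2 * x) * 2 ^ (z - 2 * x) :=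
        mul_le_mul_of_nonneg_right h1 hp.le
    _ = 2 ^ z := by rw [← Real.rpow_add (by norm_num)]; congr 1; ring

theorem pow_logb {M i s : ℕ} (hM : 0 < M) :
    (2 : ℝ) ^ (Real.logb 2 M + i - th * s) * 3 ^ s = 2 ^ i * M := by
  have hM' : (0 : ℝ) < M := by exact_mod_cast hM
  rw [three_pow, ← Real.rpow_add (by norm_num), sub_add_cancel, Real.rpow_add (by norm_num),
    Real.rpow_logb (by norm_num) (by norm_num) hM', Real.rpow_natCast]
  ring

/-- **PV1A** -/
theorem pv1a (hD : DynStatement) : PV1AStatement := by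
  classical
  intro d k z i D E x hE hx0 hx1 hsm
  obtain ⟨Ts, hTs⟩ : ∃ Ts : ℕ → Finset ℕ, Ts = fun M : ℕ => (typ i D).filter fun s : ℕ =>
    z + 2 * x ≤ Real.logb 2 M + i - th * s ∧ Real.logb 2 M + i - th * s ≤ z + 1 - 2 * x :=
    ⟨_, rfl⟩
  have e1 : ∀ M : ℕ, (∑ s ∈ typ i D,
      (if z + 2 * x ≤ Real.logb 2 M + i - th * s ∧ Real.logb 2 M + i - th * s ≤ z + 1 - 2 * x
        then 3 ^ s * Pc s i s (sg d * M) else 0)) = ∑ s ∈ Ts M, 3 ^ s * Pc s i s (sg d * M) := by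
    intro M
    rw [hTs]
    simp only [Finset.sum_filter]
  have e2 : ∑ M ∈ E, 1 / (M : ℝ) * (∑ s ∈ typ i D,
      (if z + 2 * x ≤ Real.logb 2 M + i - th * s ∧ Real.logb 2 M + i - th * s ≤ z + 1 - 2 * x
        then 3 ^ s * Pc s i s (sg d * M) else 0)) =
      ∑ M ∈ E, 1 / (M : ℝ) * ∑ s ∈ Ts M, 3 ^ s * Pc s i s (sg d * M) :=
    Finset.sum_congr rfl fun M _ => by rw [e1 M]
  obtain ⟨F, hF⟩ : ∃ F : Finset ℕ, F = (Ico (2 ^ z) (2 ^ (z + 1))).filter
    fun N => (T d)^[i] N ∈ E := ⟨_, rfl⟩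
  have goal' : 2 ^ z * ∑ M ∈ E, 1 / (M : ℝ) * ∑ s ∈ Ts M, 3 ^ s * Pc s i s (sg d * M) ≤
      (F.card : ℝ) := by
    rw [sum_G d i Ts E]
    obtain ⟨Q, hQ⟩ : ∃ Q, Q = E.sigma fun M => GI d i (Ts M) M := ⟨_, rfl⟩
    rw [← hQ]
    -- facts for the elements of `Q`
    have key : ∀ q ∈ Q, 2 ^ z * (1 / (q.1 : ℝ) * ((3 : ℝ) ^ q.2.1 / 2 ^ i)) ≤ 1 ∧
        ∃ N ∈ F, img d i N = q := by
      rintro ⟨M, s, S⟩ hq
      rw [hQ, mem_sigma] at hq
      obtain ⟨hM, hq2⟩ := hq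
      unfold GI at hq2
      rw [mem_sigma] at hq2
      obtain ⟨hs, hq3⟩ := hq2
      rw [mem_filter, mem_powersetCard] at hq3
      obtain ⟨⟨hS, hcard⟩, hres⟩ := hq3
      simp only at hM hs hS hcard hres
      subst hcard
      rw [hTs, mem_filter] at hs
      obtain ⟨hs, hw1, hw2⟩ := hs
      have hMb := hE hM
      rw [mem_blk] at hMb
      have hMpos : 0 < M := lt_of_lt_of_le (by positivity) hMb.1
      have hMr : (0 : ℝ) < M := by exact_mod_cast hMpos
      have hMk : (2 : ℝ) ^ k ≤ M := by exact_mod_cast hMb.1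
      have hs3 := hsm _ hs
      have h3M' : (3 : ℝ) ^ S.card ≤ x * M := hs3.trans (mul_le_mul_of_nonneg_left hMk hx0.le)
      have h3M : 3 ^ S.card ≤ M := by
        have h2 : (3 : ℝ) ^ S.card ≤ M := by nlinarith
        exact_mod_cast h2
      have hpl := pow_logb (M := M) (i := i) (s := S.card) hMpos
      have h3pos : (0 : ℝ) < 3 ^ S.card := by positivity
      have h2i : (0 : ℝ) < 2 ^ i := by positivity
      have hlow : (2 : ℝ) ^ ((z : ℝ) + 2 * x) * 3 ^ S.card ≤ 2 ^ i * M := by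
        rw [← hpl]
        exact mul_le_mul_of_nonneg_right
          (Real.rpow_le_rpow_of_exponent_le (by norm_num) hw1) h3pos.le
      have hhigh : 2 ^ i * (M : ℝ) ≤ (2 : ℝ) ^ ((z : ℝ) + 1 - 2 * x) * 3 ^ S.card := by
        rw [← hpl]
        exact mul_le_mul_of_nonneg_right
          (Real.rpow_le_rpow_of_exponent_le (by norm_num) hw2) h3pos.le
      have hzr : (2 : ℝ) ^ z = (2 : ℝ) ^ (z : ℝ) := (Real.rpow_natCast _ _).symm
      constructor
      · show 2 ^ z * (1 / (M : ℝ) * ((3 : ℝ) ^ S.card / 2 ^ i)) ≤ 1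
        have h1 : (2 : ℝ) ^ z ≤ (2 : ℝ) ^ ((z : ℝ) + 2 * x) := by
          rw [hzr]
          exact Real.rpow_le_rpow_of_exponent_le (by norm_num) (by linarith)
        have h2 : (2 : ℝ) ^ z * 3 ^ S.card ≤ 2 ^ i * M :=
          (mul_le_mul_of_nonneg_right h1 h3pos.le).trans hlow
        have e : 2 ^ z * (1 / (M : ℝ) * ((3 : ℝ) ^ S.card / 2 ^ i)) =
            (2 ^ z * 3 ^ S.card) / (2 ^ i * M) := by
          field_simp
        rw [e, div_le_one (by positivity)]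
        exact h2
      · obtain ⟨N, hN1, hN2⟩ := preimage hD d i M S hS hres h3M
        obtain ⟨-, a2, a3, a4, -⟩ := dyn_real hD d N i
        rw [hN2, hN1] at a3
        rw [hN2] at a4
        have h6 : (num i S : ℝ) < x * (2 ^ i * M) := by
          have h7 : (3 : ℝ) ^ S.card * 2 ^ i ≤ x * M * 2 ^ i :=
            mul_le_mul_of_nonneg_right h3M' h2i.le
          have h8 : x * M * 2 ^ i = x * (2 ^ i * M) := by ring
          linarith
        have hnum0 : (0 : ℝ) ≤ num i S := Nat.cast_nonneg _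
        have hxM : 0 < x * (2 ^ i * (M : ℝ)) := by positivity
        have b : (1 - x) * (2 ^ i * (M : ℝ)) ≤ 3 ^ S.card * (N : ℝ) ∧
            3 ^ S.card * (N : ℝ) < (1 + x) * (2 ^ i * (M : ℝ)) := by
          rcases Bool.eq_false_or_eq_true d with hd | hd
          · subst hd
            simp only [sg, if_true, Int.cast_one, one_mul] at a3
            constructor <;> linarith
          · subst hd
            simp only [sg, Bool.false_eq_true, if_false, Int.cast_neg, Int.cast_one, neg_mul,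
              one_mul] at a3
            constructor <;> linarith
        refine ⟨N, ?_, ?_⟩
        · rw [hF, mem_filter, mem_Ico, hN1]
          refine ⟨⟨?_, ?_⟩, hM⟩
          · have h1 : (2 : ℝ) ^ z * 3 ^ S.card ≤ N * 3 ^ S.card := by
              calc (2 : ℝ) ^ z * 3 ^ S.card = (2 : ℝ) ^ (z : ℝ) * 3 ^ S.card := by rw [hzr]
                _ ≤ (1 - x) * 2 ^ ((z : ℝ) + 2 * x) * 3 ^ S.card :=
                    mul_le_mul_of_nonneg_right (low_fac hx0.le hx1 z) h3pos.le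
                _ = (1 - x) * (2 ^ ((z : ℝ) + 2 * x) * 3 ^ S.card) := by ring
                _ ≤ (1 - x) * (2 ^ i * M) := mul_le_mul_of_nonneg_left hlow (by linarith)
                _ ≤ 3 ^ S.card * (N : ℝ) := b.1
                _ = _ := by ring
            have h2 : (2 : ℝ) ^ z ≤ N := le_of_mul_le_mul_right h1 h3pos
            exact_mod_cast h2
          · have h1 : (N : ℝ) * 3 ^ S.card < 2 ^ (z + 1) * 3 ^ S.card := by
              calc (N : ℝ) * 3 ^ S.card = 3 ^ S.card * (N : ℝ) := by ring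
                _ < (1 + x) * (2 ^ i * (M : ℝ)) := b.2
                _ ≤ (1 + x) * ((2 : ℝ) ^ ((z : ℝ) + 1 - 2 * x) * 3 ^ S.card) :=
                    mul_le_mul_of_nonneg_left hhigh (by linarith)
                _ = (1 + x) * (2 : ℝ) ^ ((z : ℝ) + 1 - 2 * x) * 3 ^ S.card := by ring
                _ ≤ (2 : ℝ) ^ ((z : ℝ) + 1) * 3 ^ S.card :=
                    mul_le_mul_of_nonneg_right (high_fac hx0.le _) h3pos.le
                _ = 2 ^ (z + 1) * 3 ^ S.card := by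
                    rw [← Real.rpow_natCast 2 (z + 1)]
                    push_cast
                    rfl
            have h2 : (N : ℝ) < 2 ^ (z + 1) := lt_of_mul_lt_mul_right h1 h3pos.le
            exact_mod_cast h2
        · unfold img
          rw [hN1, hN2]
    have hsub : Q ⊆ F.image (img d i) := by
      intro q hq
      obtain ⟨N, hN, rfl⟩ := (key q hq).2
      exact mem_image_of_mem _ hN
    calc 2 ^ z * ∑ q ∈ Q, 1 / (q.1 : ℝ) * ((3 : ℝ) ^ q.2.1 / 2 ^ i) =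
          ∑ q ∈ Q, 2 ^ z * (1 / (q.1 : ℝ) * ((3 : ℝ) ^ q.2.1 / 2 ^ i)) := by
          rw [Finset.mul_sum]
      _ ≤ ∑ _q ∈ Q, (1 : ℝ) := Finset.sum_le_sum fun q hq => (key q hq).1
      _ = (Q.card : ℝ) := by simp
      _ ≤ (F.card : ℝ) := by
          exact_mod_cast (card_le_card hsub).trans card_image_le
  refine le_trans (le_of_eq ?_) (goal'.trans (le_of_eq ?_))
  · rw [← e2]
  · rw [hF]

end Pool.Agent.Lib.MP_edb5be_nt.ND.H74
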